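import Pool.Agent.Q196.ND.Fin

/-!
# The nodal domains of exceptional eigenfunctions on `Γ(N) \ ℍ` are large, and there are few of them

Let `1/2 < s < 1`.  There are constants `c, C > 0`, which depend on `s` only, such that the following holds for all
`N ≥ 3` and all bounded real `Γ(N)`-invariant `C²` functions `f` on the upper half plane with
`-y² (f_xx + f_yy) = s (1 - s) f` (a counterexample to Selberg's conjecture is a cusp form, hence such a function).

* No nodal domain of `f` meets its image under a parabolic element of `Γ(N)`.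
* If `D_1, …, D_k` are nodal domains which are pairwise not `Γ(N)`-equivalent and if `A` is a measurable set which meets
  the `Γ(N)`-orbit of every point of every `D_i`, then the hyperbolic area of `A` is at least `c N^(2s) k`, and
  `∫_A |f| dμ ≥ c N^(2s) ∑_i |f(z_i)|` for all points `z_i ∈ D_i`.
* `f` has at most `C N^(3 - 2s)` nodal domains modulo `Γ(N)`.
-/

set_option autoImplicit false
set_option maxSynthPendingDepth 3

open MeasureTheory Set
open scoped ENNReal UpperHalfPlane MatrixGroups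

namespace Pool.Agent.Results.MP_a812b2_nt.LargeNodalDomains

open Pool.Agent.Q196.SE Pool.Agent.Q196.ND CongruenceSubgroup

/-- The nodal domain of `f` (restricted to `ℍ`) through `z₀`: the connected component of `{z ∈ ℍ | f z ≠ 0}` which
contains `z₀`. -/
def nodalDomain (f : ℂ → ℝ) (z₀ : ℍ) : Set ℍ := connectedComponentIn {z : ℍ | f z ≠ 0} z₀

/-- Bounded real `Γ(N)`-invariant eigenfunctions with the eigenvalue `s (1 - s)`. -/
structure IsEigenfunction (N : ℕ) (s : ℝ) (f : ℂ → ℝ) : Prop where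
  /-- `f` is of class `C²` on the upper half plane -/
  smooth : ContDiffOn ℝ 2 f {w : ℂ | 0 < w.im}
  /-- `f` is invariant under the principal congruence subgroup of level `N` -/
  invariant : ∀ γ ∈ Gamma N, ∀ z : ℍ, f ((γ • z : ℍ) : ℂ) = f (z : ℂ)
  /-- `-y² (f_xx + f_yy) = s (1 - s) f` -/
  equation : ∀ z : ℍ, -(z.im ^ 2) *
    (deriv (fun r : ℝ => deriv (fun t : ℝ => f ((t : ℂ) + (z.im : ℂ) * Complex.I)) r) z.re
      + deriv (fun r : ℝ => deriv (fun t : ℝ => f ((z.re : ℂ) + (t : ℂ) * Complex.I)) r) z.im)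
    = s * (1 - s) * f (z : ℂ)
  /-- `f` is bounded -/
  bounded : ∃ M : ℝ, ∀ z : ℍ, |f (z : ℂ)| ≤ M

lemma IsEigenfunction.eig {N : ℕ} {s : ℝ} {f : ℂ → ℝ} (h : IsEigenfunction N s f) : Eig N s f := by
  have hf' : ∀ z ∈ UH, ContDiffAt ℝ 2 f z := fun z hz =>
    h.smooth.contDiffAt (isOpen_UH.mem_nhds hz)
  obtain ⟨M, hM⟩ := h.bounded
  refine ⟨hf', fun z hz => ?_, ⟨M, fun z hz => ?_⟩, h.invariant⟩
  · lift z to ℍ using hz
    have h1 := h.equation z
    rw [dxx hf' z, dyy hf' z] at h1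
    have e : lap f z = fderiv ℝ (fun w => fderiv ℝ f w 1) z 1 +
      fderiv ℝ (fun w => fderiv ℝ f w Complex.I) z Complex.I := rfl
    rw [← e] at h1
    have e2 : (z : ℂ).im = z.im := rfl
    rw [e2]
    linarith
  · lift z to ℍ using hz
    exact hM z

/-- **The nodal domains of exceptional eigenfunctions are large, and there are few of them.** -/
theorem result (s : ℝ) (hs : 1 / 2 < s) (hs1 : s < 1) : ∃ c C : ℝ, 0 < c ∧ 0 < C ∧
    ∀ (N : ℕ) (f : ℂ → ℝ), 3 ≤ N → IsEigenfunction N s f →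
      -- no nodal domain meets its image under a parabolic element of `Γ(N)`
      (∀ z₀ : ℍ, f z₀ ≠ 0 → ∀ γ ∈ Gamma N, γ ≠ 1 → γ 0 0 + γ 1 1 = 2 →
        ∀ z ∈ nodalDomain f z₀, γ • z ∉ nodalDomain f z₀) ∧
      -- `z 0, …, z (k - 1)` lie in nodal domains which are pairwise not `Γ(N)`-equivalent
      (∀ (k : ℕ) (z : Fin k → ℍ), (∀ i, f (z i) ≠ 0) →
        (∀ i j, i ≠ j → ∀ γ ∈ Gamma N, γ • z i ∉ nodalDomain f (z j)) →
        -- areas and integrals
        (∀ A : Set ℍ, MeasurableSet A →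
          (∀ i, ∀ w ∈ nodalDomain f (z i), ∃ γ ∈ Gamma N, γ • w ∈ A) →
          ENNReal.ofReal (c * (N : ℝ) ^ (2 * s) * k) ≤ volume A ∧
          ENNReal.ofReal (c * (N : ℝ) ^ (2 * s) * ∑ i, |f (z i)|) ≤
            ∫⁻ w in A, ENNReal.ofReal |f w|) ∧
        -- the number of nodal domains modulo `Γ(N)`
        (k : ℝ) ≤ C * (N : ℝ) ^ (3 - 2 * s)) := by
  obtain ⟨c, hc0, hc⟩ := many_est hs hs1
  refine ⟨c, 6 / c, hc0, by positivity, fun N f hN hf => ⟨fun z₀ h0 γ hγ hγ1 htr z hz => ?_,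
    fun k z hz hine => ⟨fun A hA hcov => hc N hN f hf.eig k z hz hine A hA hcov, ?_⟩⟩⟩
  · exact no_parabolic hs hs1 hf.eig h0 hγ hγ1 htr hz
  · obtain ⟨F, hF, hFc, hFv⟩ := exists_F (N := N) (by omega)
    have h1 := (hc N hN f hf.eig k z hz hine F hF (fun i w _ => hFc w)).1.trans hFv
    have hN0 : (0 : ℝ) < N := by
      have : (3 : ℝ) ≤ N := by exact_mod_cast hN
      linarith
    rw [ENNReal.ofReal_le_ofReal_iff (by positivity)] at h1
    have h2 : (N : ℝ) ^ 3 = (N : ℝ) ^ (2 * s) * (N : ℝ) ^ (3 - 2 * s) := by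
      rw [← Real.rpow_add hN0, ← Real.rpow_natCast]
      congr 1
      push_cast
      ring
    have h3 : 0 < (N : ℝ) ^ (2 * s) := by positivity
    rw [h2] at h1
    have h4 : (N : ℝ) ^ (2 * s) * (c * k) ≤ (N : ℝ) ^ (2 * s) * (6 * (N : ℝ) ^ (3 - 2 * s)) := by
      linarith
    have h5 := le_of_mul_le_mul_left h4 h3
    rw [div_mul_eq_mul_div, le_div_iff₀ hc0]
    linarith

end Pool.Agent.Results.MP_a812b2_nt.LargeNodalDomains
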