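import Pool.Agent.Q196.SE.LimB
import Pool.Agent.Q196.SE.Cong

/-!
# The limit sets of the stabilisers of the nodal domains of exceptional eigenfunctions

Let `Γ` be a discrete subgroup of `SL₂(ℝ)`, let `f` be a real `Γ`-invariant `C²` function on the upper half plane with
`-y² (f_xx + f_yy) = s (1 - s) f`, `1/2 < s < 1` (so that the eigenvalue lies in `(0, 1/4)`), square integrable on
`Γ \ ℍ`, and let `D` be a nodal domain of `f` (a component of `{f ≠ 0}`) on which `f` is bounded; for a cusp form this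
holds for all nodal domains.  Let `Γ_D` be the stabiliser of `D` in `Γ`.

* For every cover of the limit set of `Γ_D` in `ℝ` by intervals `(ξ_j - r_j, ξ_j + r_j)` with `r_j ≤ Im z₀`, `z₀ ∈ D`,
  and `|f| ≤ M` on `D`: `|f z₀| ≤ M ∑_j cosh(dist(z₀, γ_j))^(-s)`, where `γ_j` is the hyperbolic geodesic with the end
  points `ξ_j ± r_j`.
* The limit set of `Γ_D` has positive `s`-dimensional Hausdorff measure; its Hausdorff dimension is at least `s > 1/2`.

Both are proved for all discrete groups and then for all subgroups of finite index in `SL₂(ℤ)` - in particular for the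
congruence subgroups - under the hypotheses of the frozen statement `S18069` (for `f : ℂ → ℂ` and all the real
functions `Re (ζ f)`, `ζ ∈ ℂ`, on the nodal domains on which they are bounded).
-/

set_option autoImplicit false
set_option maxSynthPendingDepth 3

open MeasureTheory Set
open scoped ENNReal UpperHalfPlane MatrixGroups

namespace Pool.Agent.Results.MP_a812b2_nt.LimitSets

open Pool.Agent.Q196.SE

variable {R : Type*} [CommRing R] [Algebra R ℝ]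

/-- The nodal domain of `f` (restricted to `ℍ`) through `z₀`: the connected component of `{z ∈ ℍ | f z ≠ 0}` which
contains `z₀`. -/
def nodalDomain (f : ℂ → ℝ) (z₀ : ℍ) : Set ℍ := connectedComponentIn {z : ℍ | f z ≠ 0} z₀

/-- The stabiliser in `Γ` of a set `D ⊆ ℍ`. -/
def stabiliser (Γ : Subgroup SL(2, R)) (D : Set ℍ) : Set SL(2, R) :=
  {γ | γ ∈ Γ ∧ ∀ z : ℍ, γ • z ∈ D ↔ z ∈ D}

/-- The Frobenius norm `√(a² + b² + c² + d²)`. -/
noncomputable def frob (γ : SL(2, R)) : ℝ :=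
  √((algebraMap R ℝ (γ 0 0)) ^ 2 + (algebraMap R ℝ (γ 0 1)) ^ 2 +
    (algebraMap R ℝ (γ 1 0)) ^ 2 + (algebraMap R ℝ (γ 1 1)) ^ 2)

/-- The limit set, on the real line, of a set `S` of elements of `SL₂`: the real numbers which are limits of points
`γ i`, `γ ∈ S`. -/
def limitSet (S : Set SL(2, R)) : Set ℝ :=
  {x : ℝ | (x : ℂ) ∈ closure ((fun γ : SL(2, R) => ((γ • UpperHalfPlane.I : ℍ) : ℂ)) '' S)}

/-- `cosh` of the hyperbolic distance from `z` to the geodesic with the end points `ξ - r` and `ξ + r`. -/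
noncomputable def coshDist (ξ r : ℝ) (z : ℍ) : ℝ :=
  √(1 + (((z.re - ξ) ^ 2 + z.im ^ 2 - r ^ 2) / (2 * r * z.im)) ^ 2)

/-- For every nodal domain `D` of `f` on which `f` is bounded the limit set of the stabiliser of `D` is large: the
covering inequality, positive `s`-dimensional Hausdorff measure and Hausdorff dimension at least `s`. -/
def LargeLimitSets (Γ : Subgroup SL(2, R)) (f : ℂ → ℝ) (s : ℝ) : Prop :=
  ∀ (z₀ : ℍ) (M : ℝ), f z₀ ≠ 0 → (∀ z ∈ nodalDomain f z₀, |f z| ≤ M) →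
    (∀ ξ r : ℕ → ℝ, (∀ j, 0 < r j ∧ r j ≤ z₀.im) →
      (∀ x ∈ limitSet (stabiliser Γ (nodalDomain f z₀)), ∃ j, |x - ξ j| < r j) →
      ENNReal.ofReal |f z₀| ≤
        ENNReal.ofReal M * ∑' j, ENNReal.ofReal (coshDist (ξ j) (r j) z₀ ^ (-s))) ∧
    0 < Measure.hausdorffMeasure s (limitSet (stabiliser Γ (nodalDomain f z₀))) ∧
    ENNReal.ofReal s ≤ dimH (limitSet (stabiliser Γ (nodalDomain f z₀)))

lemma bg_eq (s ξ r : ℝ) (z : ℍ) : Bg s ξ r z = coshDist ξ r z ^ (-s) := by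
  unfold coshDist Bg Sg
  rw [Real.sqrt_eq_rpow, ← Real.rpow_mul (by positivity)]
  congr 1
  ring

lemma large_of_pos {Γ : Subgroup SL(2, R)} [Countable Γ] {F : Set ℍ} {f : ℂ → ℝ} {s : ℝ}
    (hF : MeasurableSet F) (hcov : ∀ z : ℍ, ∃ γ ∈ Γ, γ • z ∈ F)
    (hdisc : ∀ X : ℝ, {γ : SL(2, R) | γ ∈ Γ ∧ n2 γ ≤ X}.Finite)
    (hs : 1 / 2 < s) (hs1 : s < 1) (hf : ∀ z ∈ UH, ContDiffAt ℝ 2 f z)
    (heig : ∀ z ∈ UH, z.im ^ 2 * lap f z = -(s * (1 - s)) * f z)
    (hinv : ∀ γ ∈ Γ, ∀ z : ℍ, f (γ • z : ℍ) = f z)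
    (hL2 : ∫⁻ z : ℍ in F, ENNReal.ofReal (f z ^ 2) < ⊤) {z₀ : ℍ} (h0 : 0 < f z₀) {M : ℝ}
    (hM : ∀ z ∈ nodalDomain f z₀, |f z| ≤ M) :
    (∀ ξ r : ℕ → ℝ, (∀ j, 0 < r j ∧ r j ≤ z₀.im) →
      (∀ x ∈ limitSet (stabiliser Γ (nodalDomain f z₀)), ∃ j, |x - ξ j| < r j) →
      ENNReal.ofReal |f z₀| ≤
        ENNReal.ofReal M * ∑' j, ENNReal.ofReal (coshDist (ξ j) (r j) z₀ ^ (-s))) ∧
    0 < Measure.hausdorffMeasure s (limitSet (stabiliser Γ (nodalDomain f z₀))) ∧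
    ENNReal.ofReal s ≤ dimH (limitSet (stabiliser Γ (nodalDomain f z₀))) := by
  have hs0 : 0 < s := by linarith
  have hN := nod_of hf heig h0
  have hz₀ : (z₀ : ℂ) ∈ (UpperHalfPlane.coe '' cmp (fun z : ℍ => f z) z₀) :=
    mem_image_of_mem _ (mem_connectedComponentIn (show z₀ ∈ {z : ℍ | f z ≠ 0} from h0.ne'))
  have hM' : ∀ z ∈ (UpperHalfPlane.coe '' cmp (fun z : ℍ => f z) z₀), f z ≤ M := by
    rintro _ ⟨z, hz, rfl⟩
    exact (le_abs_self _).trans (hM z hz)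
  have hM0 : 0 < M := h0.trans_le (hM' _ hz₀)
  have hcovineq : ∀ ξ r : ℕ → ℝ, (∀ j, 0 < r j) → (∀ j, r j ≤ (z₀ : ℂ).im) →
      (∀ x ∈ limitSet (stabiliser Γ (nodalDomain f z₀)), ∃ j, |x - ξ j| < r j) →
      ENNReal.ofReal (f z₀) ≤ ENNReal.ofReal M * ∑' j, ENNReal.ofReal (Bg s (ξ j) (r j) z₀) :=
    fun ξ r hr hr2 hc => cover_lim hs hs1 hN hM' hz₀
      (isClosed_LimS (Stb Γ (cmp (fun z : ℍ => f z) z₀)))
      (fun x hx => l2_off hF hcov hdisc hf hinv hL2 hx) hr hr2 hc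
  have hpos : 0 < Measure.hausdorffMeasure s (limitSet (stabiliser Γ (nodalDomain f z₀))) :=
    hausdorff_of hs0 z₀.im_pos h0 hM0 hcovineq
  refine ⟨fun ξ r hr hc => ?_, hpos, ?_⟩
  · have := hcovineq ξ r (fun j => (hr j).1) (fun j => (hr j).2) hc
    rw [abs_of_pos h0]
    simpa only [bg_eq] using this
  · have h1 : Measure.hausdorffMeasure (s.toNNReal : ℝ)
        (limitSet (stabiliser Γ (nodalDomain f z₀))) ≠ 0 := by
      rw [Real.coe_toNNReal s hs0.le]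
      exact hpos.ne'
    exact le_dimH_of_hausdorffMeasure_ne_zero h1

lemma lap_neg_fun (f : ℂ → ℝ) (z : ℂ) : lap (fun w => -f w) z = -lap f z := by
  have := lap_smul' (-1) (g := f) (z := z)
  have e : (fun w => (-1 : ℝ) * f w) = fun w => -f w := by funext w; ring
  rw [e] at this
  rw [this]; ring

lemma large_of {Γ : Subgroup SL(2, R)} [Countable Γ] {F : Set ℍ} {f : ℂ → ℝ} {s : ℝ}
    (hF : MeasurableSet F) (hcov : ∀ z : ℍ, ∃ γ ∈ Γ, γ • z ∈ F)
    (hdisc : ∀ X : ℝ, {γ : SL(2, R) | γ ∈ Γ ∧ n2 γ ≤ X}.Finite)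
    (hs : 1 / 2 < s) (hs1 : s < 1) (hf : ∀ z ∈ UH, ContDiffAt ℝ 2 f z)
    (heig : ∀ z ∈ UH, z.im ^ 2 * lap f z = -(s * (1 - s)) * f z)
    (hinv : ∀ γ ∈ Γ, ∀ z : ℍ, f (γ • z : ℍ) = f z)
    (hL2 : ∫⁻ z : ℍ in F, ENNReal.ofReal (f z ^ 2) < ⊤) : LargeLimitSets Γ f s := by
  intro z₀ M h0 hM
  rcases lt_or_gt_of_ne h0 with h | h
  · have e : nodalDomain (fun w => -f w) z₀ = nodalDomain f z₀ := by
      unfold nodalDomain
      congr 1
      ext z
      simp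
    have key := large_of_pos (f := fun w => -f w) hF hcov hdisc hs hs1
      (fun z hz => (hf z hz).neg)
      (fun z hz => by rw [lap_neg_fun f z]; linarith [heig z hz])
      (fun γ hγ z => by rw [hinv γ hγ z])
      (by simpa using hL2) (z₀ := z₀) (M := M) (by simpa using h)
      (by rw [e]; intro z hz; rw [abs_neg]; exact hM z hz)
    rw [e, abs_neg] at key
    exact key
  · exact large_of_pos hF hcov hdisc hs hs1 hf heig hinv hL2 h hM

lemma disc_int (X : ℝ) : {γ : SL(2, ℤ) | n2 γ ≤ X}.Finite := by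
  set B : ℤ := ⌈|X|⌉ + 1 with hB
  have hinj : Function.Injective fun γ : SL(2, ℤ) => (γ 0 0, γ 0 1, γ 1 0, γ 1 1) := by
    intro γ δ h
    simp only [Prod.mk.injEq] at h
    ext i j
    fin_cases i <;> fin_cases j
    · exact h.1
    · exact h.2.1
    · exact h.2.2.1
    · exact h.2.2.2
  refine Set.Finite.of_finite_image (f := fun γ : SL(2, ℤ) => (γ 0 0, γ 0 1, γ 1 0, γ 1 1)) ?_
    hinj.injOn
  refine Set.Finite.subset ((Set.finite_Icc (-B) B).prod ((Set.finite_Icc (-B) B).prod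
    ((Set.finite_Icc (-B) B).prod (Set.finite_Icc (-B) B)))) ?_
  rintro _ ⟨γ, hγ, rfl⟩
  have hγ' : n2 γ ≤ X := hγ
  unfold n2 at hγ'
  simp only [algebraMap_int_eq, eq_intCast] at hγ'
  have hX : |X| ≤ (B : ℝ) - 1 := by rw [hB]; push_cast; linarith [Int.le_ceil |X|]
  have hX0 := le_abs_self X
  have hX1 := abs_nonneg X
  have key : ∀ n : ℤ, (n : ℝ) ^ 2 ≤ X → n ∈ Set.Icc (-B) B := by
    intro n hn
    have h1 : (n : ℝ) ^ 2 ≤ (B : ℝ) ^ 2 := by nlinarith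
    have h2 : n ^ 2 ≤ B ^ 2 := by exact_mod_cast h1
    have hB0 : (0 : ℝ) ≤ B := by linarith
    have hB1 : 0 ≤ B := by exact_mod_cast hB0
    exact abs_le.1 (abs_le_of_sq_le_sq h2 hB1)
  have p0 := sq_nonneg ((γ 0 0 : ℤ) : ℝ)
  have p1 := sq_nonneg ((γ 0 1 : ℤ) : ℝ)
  have p2 := sq_nonneg ((γ 1 0 : ℤ) : ℝ)
  have p3 := sq_nonneg ((γ 1 1 : ℤ) : ℝ)
  exact ⟨key _ (by linarith), key _ (by linarith), key _ (by linarith), key _ (by linarith)⟩

/-- **The limit sets of the stabilisers of the nodal domains of bounded exceptional eigenfunctions have positive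
`s`-dimensional Hausdorff measure.** -/
theorem result :
    -- discrete groups `Γ ≤ SL₂(ℝ)`; `F` is any measurable set which meets all orbits
    (∀ (Γ : Subgroup SL(2, ℝ)) (F : Set ℍ), (∀ X : ℝ, {γ : SL(2, ℝ) | γ ∈ Γ ∧ frob γ ≤ X}.Finite) →
      MeasurableSet F → (∀ z : ℍ, ∃ γ ∈ Γ, γ • z ∈ F) →
      ∀ (f : ℂ → ℝ) (s : ℝ), 1 / 2 < s → s < 1 →
      ContDiffOn ℝ 2 f {w : ℂ | 0 < w.im} →
      (∀ γ ∈ Γ, ∀ z : ℍ, f ((γ • z : ℍ) : ℂ) = f (z : ℂ)) →
      (∀ z : ℍ, -(z.im ^ 2) *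
          (deriv (fun r : ℝ => deriv (fun t : ℝ => f ((t : ℂ) + (z.im : ℂ) * Complex.I)) r) z.re
           + deriv (fun r : ℝ => deriv (fun t : ℝ => f ((z.re : ℂ) + (t : ℂ) * Complex.I)) r) z.im)
          = s * (1 - s) * f (z : ℂ)) →
      ∫⁻ z : ℍ in F, ENNReal.ofReal (f z ^ 2) < ⊤ →
      LargeLimitSets Γ f s) ∧
    -- subgroups of finite index of `SL₂(ℤ)`, with the hypotheses of `S18069`
    (∀ Γ : Subgroup SL(2, ℤ), Γ.FiniteIndex →
      ∀ (f : ℂ → ℂ) (s : ℝ), 1 / 2 < s → s < 1 →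
      ContDiffOn ℝ 2 f {w : ℂ | 0 < w.im} →
      (∀ γ ∈ Γ, ∀ z : ℍ, f ((γ • z : ℍ) : ℂ) = f (z : ℂ)) →
      (∀ z : ℍ, -((z.im : ℂ) ^ 2) *
          (deriv (fun r : ℝ => deriv (fun t : ℝ => f ((t : ℂ) + (z.im : ℂ) * Complex.I)) r) z.re
           + deriv (fun r : ℝ => deriv (fun t : ℝ => f ((z.re : ℂ) + (t : ℂ) * Complex.I)) r) z.im)
          = ((s * (1 - s) : ℝ) : ℂ) * f (z : ℂ)) →
      (∀ γ : SL(2, ℤ), IntegrableOn (fun w : ℂ => ‖f w‖ ^ 2 / w.im ^ 2)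
        ((fun z : ℍ => ((γ • z : ℍ) : ℂ)) '' ModularGroup.fd)) →
      ∀ ζ : ℂ, LargeLimitSets Γ (fun w => (ζ * f w).re) s) := by
  refine ⟨?_, ?_⟩
  · intro Γ F hdisc hF hcov f s hs hs1 hf hinv heq hL2
    have hf' : ∀ z ∈ UH, ContDiffAt ℝ 2 f z := fun z hz => hf.contDiffAt (isOpen_UH.mem_nhds hz)
    have hdisc' : ∀ X : ℝ, {γ : SL(2, ℝ) | γ ∈ Γ ∧ n2 γ ≤ X}.Finite := by
      intro X
      refine (hdisc (√X)).subset fun γ hγ => ⟨hγ.1, ?_⟩
      exact Real.sqrt_le_sqrt hγ.2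
    have hcount : Countable Γ := by
      have h1 : ((Γ : Set SL(2, ℝ))).Countable := by
        refine Set.Countable.mono (s₂ := ⋃ n : ℕ, {γ : SL(2, ℝ) | γ ∈ Γ ∧ frob γ ≤ n}) ?_
          (Set.countable_iUnion fun n => (hdisc n).countable)
        intro γ hγ
        obtain ⟨n, hn⟩ := exists_nat_ge (frob γ)
        exact mem_iUnion.2 ⟨n, hγ, hn⟩
      exact h1.to_subtype
    refine large_of hF hcov hdisc' hs hs1 hf' ?_ hinv hL2
    intro z hz
    lift z to ℍ using hz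
    have h := heq z
    rw [dxx hf' z, dyy hf' z] at h
    have e : lap f z = fderiv ℝ (fun w => fderiv ℝ f w 1) z 1 +
      fderiv ℝ (fun w => fderiv ℝ f w Complex.I) z Complex.I := rfl
    rw [← e] at h
    have e2 : (z : ℂ).im = z.im := rfl
    rw [e2]
    linarith
  · intro Γ hΓ f s hs hs1 hf hinv heq hL2 ζ
    have : Countable (Matrix (Fin 2) (Fin 2) ℤ) := inferInstanceAs (Countable (Fin 2 → Fin 2 → ℤ))
    have : Countable SL(2, ℤ) :=
      inferInstanceAs (Countable {A : Matrix (Fin 2) (Fin 2) ℤ // A.det = 1})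
    have : Countable Γ := inferInstance
    have hf' : ∀ z ∈ UH, ContDiffAt ℝ 2 f z := fun z hz => hf.contDiffAt (isOpen_UH.mem_nhds hz)
    set L : ℂ →L[ℝ] ℝ := Complex.reCLM.comp ((ContinuousLinearMap.mul ℝ ℂ) ζ) with hL
    have hLe : ∀ w, L w = (ζ * w).re := fun w => rfl
    have hfL : (fun w => (ζ * f w).re) = fun w => L (f w) := rfl
    refine large_of (FF_meas Γ) (FF_cov Γ) (fun X => (disc_int X).subset fun γ hγ => hγ.2) hs hs1
      ?_ ?_ ?_ (FF_L2 Γ hf' ζ hL2)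
    · intro z hz
      rw [hfL]
      exact L.contDiff.contDiffAt.comp z (hf' z hz)
    · intro z hz
      lift z to ℍ using hz
      have h := heq z
      rw [dxx hf' z, dyy hf' z] at h
      rw [hfL, lap_lin L hf' z]
      set V := fderiv ℝ (fun w => fderiv ℝ f w 1) z 1 +
        fderiv ℝ (fun w => fderiv ℝ f w Complex.I) z Complex.I with hV
      have e1 : z.im ^ 2 * L V = L (((z.im : ℂ) ^ 2) * V) := by
        have : ((z.im : ℂ) ^ 2) * V = (z.im ^ 2 : ℝ) • V := by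
          rw [Complex.real_smul]; push_cast; rfl
        rw [this, map_smul, smul_eq_mul]
      have e2 : ((z.im : ℂ) ^ 2) * V = (-(s * (1 - s)) : ℝ) • f z := by
        rw [Complex.real_smul]
        have : ((z.im : ℂ) ^ 2) * V = -(-((z.im : ℂ) ^ 2) * V) := by ring
        rw [this, h]
        push_cast
        ring
      have e3 : (z : ℂ).im = z.im := rfl
      rw [e3, e1, e2, map_smul, smul_eq_mul]
      rfl
    · intro γ hγ z
      show (ζ * f _).re = (ζ * f _).re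
      rw [hinv γ hγ z]

end Pool.Agent.Results.MP_a812b2_nt.LimitSets
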