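import Pool.Agent.Q196.SE.Cong

/-!
# Nodal domains of exceptional eigenfunctions have large stabilisers

Let `Γ ≤ SL₂(ℝ)` act on the upper half plane `ℍ`, let `f` be a real, smooth, `Γ`-invariant function, square integrable
on `Γ \ ℍ`, with `-y² (f_xx + f_yy) = s (1 - s) f`, `1/2 < s < 1` (so that the eigenvalue lies in `(0, 1/4)`), and
let `D` be a nodal domain of `f`: a connected component of `{f ≠ 0}`.  We show that the stabiliser `Γ_D` of `D` in `Γ`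
is large: with the Frobenius norm `‖γ‖`, so `‖γ‖² = 2 cosh d(i, γ i)`,

`∑_{γ ∈ Γ_D, ‖γ‖ ≤ X} ‖γ‖⁻¹ ≥ c X^(2s-1)` for all `X ≥ √2`, with `c > 0`,

and the Poincaré series `∑_{γ ∈ Γ_D} ‖γ‖^(-2s)` of `Γ_D` diverges at the exponent `s` (so the exponent of convergence of
`Γ_D` is at least `s > 1/2`, and if it is `s` then `Γ_D` is of divergence type).

Both are proved for all groups with a measurable fundamental set of bounded multiplicity, and then for
all subgroups of finite index in `SL₂(ℤ)` - in particular for the congruence subgroups - under the hypotheses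
of the frozen statement `S18069` (for `f : ℂ → ℂ` and all the real functions `Re (ζ f)`, `ζ ∈ ℂ`).
-/

set_option autoImplicit false
set_option maxSynthPendingDepth 3

open MeasureTheory Set
open scoped ENNReal UpperHalfPlane MatrixGroups

namespace Pool.Agent.Results.MP_a812b2_nt.NodalStabilisers

open Pool.Agent.Q196.SE

variable {R : Type*} [CommRing R] [Algebra R ℝ]

/-- The nodal domain of `f` (restricted to `ℍ`) through `z₀`: the connected component of `{z ∈ ℍ | f z ≠ 0}` which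
contains `z₀`. -/
def nodalDomain (f : ℂ → ℝ) (z₀ : ℍ) : Set ℍ := connectedComponentIn {z : ℍ | f z ≠ 0} z₀

/-- The stabiliser in `Γ` of a set `D ⊆ ℍ`. -/
def stabiliser (Γ : Subgroup SL(2, R)) (D : Set ℍ) : Set SL(2, R) :=
  {γ | γ ∈ Γ ∧ ∀ z : ℍ, γ • z ∈ D ↔ z ∈ D}

/-- The Frobenius norm `√(a² + b² + c² + d²)`. -/
noncomputable def frob (γ : SL(2, R)) : ℝ :=
  √((algebraMap R ℝ (γ 0 0)) ^ 2 + (algebraMap R ℝ (γ 0 1)) ^ 2 +
    (algebraMap R ℝ (γ 1 0)) ^ 2 + (algebraMap R ℝ (γ 1 1)) ^ 2)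

/-- The stabilisers in `Γ` of all the nodal domains of `f` are large, with exponent `s`. -/
def LargeStabilisers (Γ : Subgroup SL(2, R)) (f : ℂ → ℝ) (s : ℝ) : Prop :=
  ∀ z₀ : ℍ, f z₀ ≠ 0 →
    (∃ c > 0, ∀ X : ℝ, √2 ≤ X → ENNReal.ofReal (c * X ^ (2 * s - 1)) ≤
      ∑' γ : {γ : SL(2, R) // γ ∈ stabiliser Γ (nodalDomain f z₀) ∧ frob γ ≤ X},
        ENNReal.ofReal (frob γ.1)⁻¹) ∧
    ∑' γ : stabiliser Γ (nodalDomain f z₀), ENNReal.ofReal (frob γ.1 ^ (-(2 * s))) = ⊤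

lemma large_of_pos {Γ : Subgroup SL(2, R)} [Countable Γ] {F : Set ℍ} {m : ℕ} {f : ℂ → ℝ} {s : ℝ}
    (hF : MeasurableSet F) (hcov : ∀ z : ℍ, ∃ γ ∈ Γ, γ • z ∈ F)
    (hmul : ∀ z : ℍ, {γ : SL(2, R) | γ ∈ Γ ∧ γ • z ∈ F}.encard ≤ m)
    (hs : 1 / 2 < s) (hs1 : s < 1) (hf : ∀ z ∈ UH, ContDiffAt ℝ 2 f z)
    (heig : ∀ z ∈ UH, z.im ^ 2 * lap f z = -(s * (1 - s)) * f z)
    (hinv : ∀ γ ∈ Γ, ∀ z : ℍ, f (γ • z : ℍ) = f z)
    (hL2 : ∫⁻ z : ℍ in F, ENNReal.ofReal (f z ^ 2) < ⊤) {z₀ : ℍ} (h0 : 0 < f z₀) :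
    (∃ c > 0, ∀ X : ℝ, √2 ≤ X → ENNReal.ofReal (c * X ^ (2 * s - 1)) ≤
      ∑' γ : {γ : SL(2, R) // γ ∈ stabiliser Γ (nodalDomain f z₀) ∧ frob γ ≤ X},
        ENNReal.ofReal (frob γ.1)⁻¹) ∧
    ∑' γ : stabiliser Γ (nodalDomain f z₀), ENNReal.ofReal (frob γ.1 ^ (-(2 * s))) = ⊤ := by
  classical
  obtain ⟨c, hc, h⟩ := main_pos hF hcov hmul hs hs1 hf heig hinv hL2 h0
  refine ⟨⟨c, hc, fun X hX => (h X hX).trans (le_of_eq ?_)⟩, ?_⟩
  · refine Eq.trans ?_ (tsum_subtype {γ : SL(2, R) | γ ∈ stabiliser Γ (nodalDomain f z₀) ∧ frob γ ≤ X}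
      (fun γ => ENNReal.ofReal (frob γ)⁻¹)).symm
    refine tsum_congr fun γ => ?_
    have e : √(n2 γ) = frob γ := rfl
    by_cases h1 : γ ∈ stabiliser Γ (nodalDomain f z₀)
    · have h1' : γ ∈ Stb Γ (cmp (fun z : ℍ => f z) z₀) := h1
      by_cases h2 : frob γ ≤ X
      · rw [indicator_of_mem h1', e, if_pos h2, indicator_of_mem (show γ ∈ {γ : SL(2, R) |
          γ ∈ stabiliser Γ (nodalDomain f z₀) ∧ frob γ ≤ X} from ⟨h1, h2⟩), Pi.one_apply, one_mul]
      · rw [e, if_neg h2, mul_zero, indicator_of_notMem (fun h => h2 h.2)]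
    · have h1' : γ ∉ Stb Γ (cmp (fun z : ℍ => f z) z₀) := h1
      rw [indicator_of_notMem h1', zero_mul, indicator_of_notMem (fun h => h1 h.1)]
  · rw [tsum_subtype (stabiliser Γ (nodalDomain f z₀)) (fun γ => ENNReal.ofReal (frob γ ^ (-(2 * s))))]
    rw [← poincare_div hs hc h]
    refine tsum_congr fun γ => ?_
    by_cases h1 : γ ∈ stabiliser Γ (nodalDomain f z₀)
    · have h1' : γ ∈ Stb Γ (cmp (fun z : ℍ => f z) z₀) := h1
      rw [indicator_of_mem h1', indicator_of_mem h1, Pi.one_apply, one_mul]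
      rfl
    · have h1' : γ ∉ Stb Γ (cmp (fun z : ℍ => f z) z₀) := h1
      rw [indicator_of_notMem h1', zero_mul, indicator_of_notMem h1]

lemma large_of {Γ : Subgroup SL(2, R)} [Countable Γ] {F : Set ℍ} {m : ℕ} {f : ℂ → ℝ} {s : ℝ}
    (hF : MeasurableSet F) (hcov : ∀ z : ℍ, ∃ γ ∈ Γ, γ • z ∈ F)
    (hmul : ∀ z : ℍ, {γ : SL(2, R) | γ ∈ Γ ∧ γ • z ∈ F}.encard ≤ m)
    (hs : 1 / 2 < s) (hs1 : s < 1) (hf : ∀ z ∈ UH, ContDiffAt ℝ 2 f z)
    (heig : ∀ z ∈ UH, z.im ^ 2 * lap f z = -(s * (1 - s)) * f z)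
    (hinv : ∀ γ ∈ Γ, ∀ z : ℍ, f (γ • z : ℍ) = f z)
    (hL2 : ∫⁻ z : ℍ in F, ENNReal.ofReal (f z ^ 2) < ⊤) : LargeStabilisers Γ f s := by
  intro z₀ h0
  rcases lt_or_gt_of_ne h0 with h | h
  · have hlap : ∀ z : ℂ, lap (fun w => -f w) z = -lap f z := by
      intro z
      have e1 : px (fun w => -f w) = fun w => -px f w := by
        funext w; unfold px; rw [fderiv_fun_neg]; rfl
      have e2 : py (fun w => -f w) = fun w => -py f w := by
        funext w; unfold py; rw [fderiv_fun_neg]; rfl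
      unfold lap
      rw [e1, e2]
      have e3 : px (fun w => -px f w) z = -px (px f) z := by
        unfold px; rw [fderiv_fun_neg]; rfl
      have e4 : py (fun w => -py f w) z = -py (py f) z := by
        unfold py; rw [fderiv_fun_neg]; rfl
      rw [e3, e4]; ring
    have key := large_of_pos (f := fun w => -f w) hF hcov hmul hs hs1
      (fun z hz => (hf z hz).neg)
      (fun z hz => by rw [hlap z]; linarith [heig z hz])
      (fun γ hγ z => by rw [hinv γ hγ z])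
      (by simpa using hL2) (z₀ := z₀) (by simpa using h)
    have e : nodalDomain (fun w => -f w) z₀ = nodalDomain f z₀ := by
      unfold nodalDomain
      congr 1
      ext z
      simp
    rw [e] at key
    exact key
  · exact large_of_pos hF hcov hmul hs hs1 hf heig hinv hL2 h

/-- **Nodal domains of exceptional eigenfunctions have large stabilisers.** -/
theorem result :
    -- general groups `Γ ≤ SL₂(ℝ)` with a fundamental set of bounded multiplicity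
    (∀ (Γ : Subgroup SL(2, ℝ)) (F : Set ℍ) (m : ℕ), Countable Γ → MeasurableSet F →
      (∀ z : ℍ, ∃ γ ∈ Γ, γ • z ∈ F) →
      (∀ z : ℍ, {γ : SL(2, ℝ) | γ ∈ Γ ∧ γ • z ∈ F}.encard ≤ m) →
      ∀ (f : ℂ → ℝ) (s : ℝ), 1 / 2 < s → s < 1 →
      ContDiffOn ℝ 2 f {w : ℂ | 0 < w.im} →
      (∀ γ ∈ Γ, ∀ z : ℍ, f ((γ • z : ℍ) : ℂ) = f (z : ℂ)) →
      (∀ z : ℍ, -(z.im ^ 2) *
          (deriv (fun r : ℝ => deriv (fun t : ℝ => f ((t : ℂ) + (z.im : ℂ) * Complex.I)) r) z.re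
           + deriv (fun r : ℝ => deriv (fun t : ℝ => f ((z.re : ℂ) + (t : ℂ) * Complex.I)) r) z.im)
          = s * (1 - s) * f (z : ℂ)) →
      ∫⁻ z : ℍ in F, ENNReal.ofReal (f z ^ 2) < ⊤ →
      LargeStabilisers Γ f s) ∧
    -- subgroups of finite index of `SL₂(ℤ)`, with the hypotheses of `S18069`
    (∀ Γ : Subgroup SL(2, ℤ), Γ.FiniteIndex →
      ∀ (f : ℂ → ℂ) (s : ℝ), 1 / 2 < s → s < 1 →
      ContDiffOn ℝ 2 f {w : ℂ | 0 < w.im} →
      (∀ γ ∈ Γ, ∀ z : ℍ, f ((γ • z : ℍ) : ℂ) = f (z : ℂ)) →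
      (∀ z : ℍ, -((z.im : ℂ) ^ 2) *
          (deriv (fun r : ℝ => deriv (fun t : ℝ => f ((t : ℂ) + (z.im : ℂ) * Complex.I)) r) z.re
           + deriv (fun r : ℝ => deriv (fun t : ℝ => f ((z.re : ℂ) + (t : ℂ) * Complex.I)) r) z.im)
          = ((s * (1 - s) : ℝ) : ℂ) * f (z : ℂ)) →
      (∀ γ : SL(2, ℤ), IntegrableOn (fun w : ℂ => ‖f w‖ ^ 2 / w.im ^ 2)
        ((fun z : ℍ => ((γ • z : ℍ) : ℂ)) '' ModularGroup.fd)) →
      ∀ ζ : ℂ, LargeStabilisers Γ (fun w => (ζ * f w).re) s) := by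
  refine ⟨?_, ?_⟩
  · intro Γ F m hΓ hF hcov hmul f s hs hs1 hf hinv heq hL2
    have hf' : ∀ z ∈ UH, ContDiffAt ℝ 2 f z := fun z hz => hf.contDiffAt (isOpen_UH.mem_nhds hz)
    refine large_of hF hcov hmul hs hs1 hf' ?_ hinv hL2
    intro z hz
    lift z to ℍ using hz
    have h := heq z
    rw [dxx hf' z, dyy hf' z] at h
    have e : lap f z = fderiv ℝ (fun w => fderiv ℝ f w 1) z 1 +
      fderiv ℝ (fun w => fderiv ℝ f w Complex.I) z Complex.I := rfl
    rw [← e] at h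
    have e2 : (z : ℂ).im = z.im := rfl
    rw [e2]
    linarith
  · intro Γ hΓ f s hs hs1 hf hinv heq hL2 ζ
    have : Countable (Matrix (Fin 2) (Fin 2) ℤ) := inferInstanceAs (Countable (Fin 2 → Fin 2 → ℤ))
    have : Countable SL(2, ℤ) :=
      inferInstanceAs (Countable {A : Matrix (Fin 2) (Fin 2) ℤ // A.det = 1})
    have : Countable Γ := inferInstance
    have hf' : ∀ z ∈ UH, ContDiffAt ℝ 2 f z := fun z hz => hf.contDiffAt (isOpen_UH.mem_nhds hz)
    obtain ⟨m, hm⟩ := FF_mul Γ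
    set L : ℂ →L[ℝ] ℝ := Complex.reCLM.comp ((ContinuousLinearMap.mul ℝ ℂ) ζ) with hL
    have hLe : ∀ w, L w = (ζ * w).re := fun w => rfl
    have hfL : (fun w => (ζ * f w).re) = fun w => L (f w) := rfl
    refine large_of (FF_meas Γ) (FF_cov Γ) hm hs hs1 ?_ ?_ ?_ (FF_L2 Γ hf' ζ hL2)
    · intro z hz
      rw [hfL]
      exact L.contDiff.contDiffAt.comp z (hf' z hz)
    · intro z hz
      lift z to ℍ using hz
      have h := heq z
      rw [dxx hf' z, dyy hf' z] at h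
      rw [hfL, lap_lin L hf' z]
      set V := fderiv ℝ (fun w => fderiv ℝ f w 1) z 1 +
        fderiv ℝ (fun w => fderiv ℝ f w Complex.I) z Complex.I with hV
      have e1 : z.im ^ 2 * L V = L (((z.im : ℂ) ^ 2) * V) := by
        have : ((z.im : ℂ) ^ 2) * V = (z.im ^ 2 : ℝ) • V := by
          rw [Complex.real_smul]; push_cast; rfl
        rw [this, map_smul, smul_eq_mul]
      have e2 : ((z.im : ℂ) ^ 2) * V = (-(s * (1 - s)) : ℝ) • f z := by
        rw [Complex.real_smul]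
        have : ((z.im : ℂ) ^ 2) * V = -(-((z.im : ℂ) ^ 2) * V) := by ring
        rw [this, h]
        push_cast
        ring
      have e3 : (z : ℂ).im = z.im := rfl
      rw [e3, e1, e2, map_smul, smul_eq_mul]
      rfl
    · intro γ hγ z
      rw [hinv γ hγ z]

end Pool.Agent.Results.MP_a812b2_nt.NodalStabilisers
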