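import Pool.Agent.Q284.PX.All4

/-!
# The symmetric power method towards Selberg's conjecture is sharp

`K = F_q(T)`, `q` odd.  For all `M ≥ M₀`, every place `P₀` of `K` of degree at least `m₀(M)` and every `θ ≥ 0` with
`(M - 1) θ ≤ 1 - 6/M` there are unramified `Π_P` of `PGL(2)` at all finite places `P`: tempered with angles
`ψ P`, prescribed up to `C/M` by any function `φ`, at all `P ≠ P₀`, and of the complementary series with exponent `θ`
(Satake parameters `|P₀|^θ`, `|P₀|^(-θ)`) at `P₀`, such that for EVERY idele class character `χ` of `K`, with whatever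
ramification, `L(s, Sym^(M-1) Π ⊗ χ)` is nice: its Euler product converges for `Re s ≥ 1 - 5/(2M)` to an entire
function without zeros there, a polynomial in `q^(-s)` of the prescribed degree `D χ` with functional equation with
the prescribed root number `ε χ`.

For comparison: the argument of Luo, Rudnick and Sarnak, applied to the Euler products
`L(s, Sym^(M-1) Π ⊗ χ)` of degree `M`, gives `(M - 1) θ ≤ 1 - 2/(M + 1)` from their niceness.  So niceness of
all abelian twists of one symmetric power gives this bound, and nothing better than `1 - 6/M` (up to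
the constant `6` the same).

Project PX4: plan, statements with paper proofs and assembly by helper284; lemmas proved by helpers 38, 79, 92 (and,
projects PS and PX, helpers 16, 24, 53, 58, 68, 92, 95, 137, 149, 162, 166, 177, 184, 222, 223, 225, 237, 239, 249,
251, 261, 277, 285).
-/

set_option autoImplicit false

open Finset Polynomial ComplexConjugate

namespace Pool.Agent.Results.MP_a812b2_nt.SymmetricPowerMethodSharp

open Pool.Agent.Q284.PS Pool.Agent.Q284.PX

theorem result : ∃ (C : ℝ) (M₀ : ℕ), ∀ M : ℕ, M₀ ≤ M → ∃ m₀ : ℕ, ∀ (F : Type) [Field F] [Fintype F],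
    ringChar F ≠ 2 → ∀ P₀ : F[X], P₀.Monic → Irreducible P₀ → m₀ ≤ P₀.natDegree →
    ∀ θ : ℝ, 0 ≤ θ → ((M : ℝ) - 1) * θ ≤ 1 - 6 / (M : ℝ) →
    ∀ φ : F[X] → ℝ, ∀ (D : F[X] → ℕ → (F[X] → ℂ) → ℕ) (ε : (F[X] → ℂ) → ℂ),
    (∀ (Q : F[X]) (l : ℕ) (χ : F[X] → ℂ), Prim Q l χ →
      M * (Q.natDegree + max 2 l - 1) ≤ D Q l χ ∧ D Q l (fun f => conj (χ f)) = D Q l χ) →
    (∀ χ, ‖ε χ‖ = 1) → (∀ χ, ε (fun f => conj (χ f)) = conj (ε χ)) →
    ∃ (α : F[X] → ℂ) (ψ : F[X] → ℝ), α P₀ = (((Fintype.card F : ℝ) ^ (θ * P₀.natDegree) : ℝ) : ℂ) ∧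
      (∀ P, P ≠ P₀ → α P = Complex.exp ((ψ P : ℂ) * Complex.I)) ∧ (∀ P, |ψ P - φ P| ≤ C / M) ∧
      ∀ (Q : F[X]) (l : ℕ) (χ : F[X] → ℂ), Prim Q l χ → ∃ L : ℂ → ℂ,
        Nice (Fintype.card F) (D Q l χ) (ε χ) L ∧
        ∀ s : ℂ, 1 - 5 / (2 * (M : ℝ)) ≤ s.re → L s ≠ 0 ∧ HasProd (symFactor M α χ s) (L s) :=
  bStm

end Pool.Agent.Results.MP_a812b2_nt.SymmetricPowerMethodSharp
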